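import Pool.Agent.helper57.LQ.SpecC

/-!
# Row lq:DRP (MP_ebc808_nt): the monomials `GG a b` lower degrees by `nn a b`
-/

set_option autoImplicit false

open Finset PowerSeries

noncomputable section

namespace Pool.Agent.LQ

theorem DRP_pow (hALG : ALG_stmt) {N : ℕ} (hN : 1 < N) {A : Module.End (ZMod 2) FF} (hA : A ∈ TT N) :
    ∀ n : ℕ, A ^ n ∈ TT N
  | 0 => by
    rw [pow_zero]
    exact (hALG N hN).1
  | n + 1 => by
    rw [pow_succ]
    exact ((hALG N hN).2 _ (DRP_pow hALG hN hA n) _ hA).1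

theorem DRP_GG (hALG : ALG_stmt) (a b : ℕ) : GG a b ∈ TT 2 := by
  have h3 : T 3 ∈ TT 2 := Submodule.subset_span ⟨3, by norm_num, rfl⟩
  have h5 : T 5 ∈ TT 2 := Submodule.subset_span ⟨5, by norm_num, rfl⟩
  exact ((hALG 2 one_lt_two).2 _ (DRP_pow hALG one_lt_two h3 a) _ (DRP_pow hALG one_lt_two h5 b)).1

theorem DRP_mul (hALG : ALG_stmt) (a b a' b' : ℕ) : GG a' b' * GG a b = GG (a' + a) (b' + b) := by
  have h3 : T 3 ∈ TT 2 := Submodule.subset_span ⟨3, by norm_num, rfl⟩
  have h5 : T 5 ∈ TT 2 := Submodule.subset_span ⟨5, by norm_num, rfl⟩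
  have hc : T 5 ^ b' * T 3 ^ a = T 3 ^ a * T 5 ^ b' :=
    ((hALG 2 one_lt_two).2 _ (DRP_pow hALG one_lt_two h5 b') _ (DRP_pow hALG one_lt_two h3 a)).2
  unfold GG
  rw [pow_add, pow_add, mul_assoc, ← mul_assoc (T 5 ^ b') (T 3 ^ a), hc]
  simp only [mul_assoc]

theorem DRP (hGN2 : GN2_stmt) (hALG : ALG_stmt) (hAF3 : AF3_stmt) (hFUN : FUN_stmt) (hSDF : SDF_stmt)
    (hGKL : GKL_stmt) : DRP_stmt := by
  intro M hM i hi hiM a b
  obtain ⟨-, -, hsup, hrep, -⟩ := hSDF
  obtain ⟨-, -, -, -, hF5⟩ := hFUN 2 DD hGN2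
  have hi1 : DD ^ i ∈ VV 2 DD (i + 1) :=
    Submodule.subset_span ⟨i, Nat.lt_succ_self i, Nat.coprime_two_right.2 hi, rfl⟩
  have hf1 : GG a b (DD ^ i) ∈ VV 2 DD (i + 1) := hAF3.2 2 DD hGN2 _ (DRP_GG hALG a b) _ _ hi1
  have key : ∀ t : ℕ, t ≤ nn a b → t ≤ i → GG a b (DD ^ i) ∈ VV 2 DD (i + 1 - t) := by
    intro t
    induction t with
    | zero => exact fun _ _ => hf1
    | succ t ih =>
      intro h1 h2
      have ih' := ih (by omega) (by omega)
      have e : i + 1 - t = (i - t) + 1 := by omega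
      have e' : i + 1 - (t + 1) = i - t := by omega
      rw [e] at ih'
      rw [e']
      set l := i - t with hl
      rcases hF5 l _ ih' with h | ⟨hlc, h⟩
      · exact h
      · exfalso
        have hlo : Odd l := Nat.coprime_two_right.1 hlc
        obtain ⟨s, hs⟩ := hlo
        obtain ⟨a', b', hab⟩ := hrep s
        have hnn : nn a' b' = l - 1 := by
          unfold nn
          omega
        have hlt : nn a' b' < 8 * M := by omega
        obtain ⟨g1, g2⟩ := (hGKL M hM a' b').1 hlt
        have e1 : 1 + nn a' b' = l := by omega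
        rw [e1] at g1 g2
        have h3 := g1 _ h
        rw [map_add] at h3
        have h4 : GG a' b' (GG a b (DD ^ i)) = GG a' b' (DD ^ l) := by
          have h5 := add_self_FF (GG a' b' (DD ^ l))
          exact add_right_cancel (h3.trans h5.symm)
        have h6 : GG a' b' (GG a b (DD ^ i)) = GG (a' + a) (b' + b) (DD ^ i) := by
          rw [← DRP_mul hALG, Module.End.mul_apply]
        have hsum : nn a' b' + nn a b ≤ nn (a' + a) (b' + b) := by
          have := hsup a' a
          have := hsup b' b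
          unfold nn
          omega
        have hzero : GG (a' + a) (b' + b) (DD ^ i) = 0 := by
          rcases lt_or_ge (nn (a' + a) (b' + b)) (8 * M) with hlt' | hge
          · refine ((hGKL M hM (a' + a) (b' + b)).1 hlt').1 _ (VV_mono 2 DD ?_ hi1)
            omega
          · refine (hGKL M hM (a' + a) (b' + b)).2 hge _ (VV_mono 2 DD ?_ hi1)
            omega
        rw [← h4, h6, hzero, map_zero] at g2
        exact zero_ne_one g2
  rcases le_total (nn a b) i with h | h
  · have h' := key (nn a b) le_rfl h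
    have e : i + 1 - nn a b = i - nn a b + 1 := by omega
    rw [e] at h'
    exact h'
  · have h' := key i h le_rfl
    have e : i + 1 - i = i - nn a b + 1 := by omega
    rw [e] at h'
    exact h'

end Pool.Agent.LQ
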