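import Pool.Agent.helper57.LQ.SpecB

/-!
# Row lq:HT5 (MP_ebc808_nt): `T 5 (DD ^ k)` for odd `k`
-/

set_option autoImplicit false

open Finset PowerSeries

noncomputable section

namespace Pool.Agent.LQ

/-- the operator `U_5` -/
def HT5_U : FF →ₗ[ZMod 2] FF where
  toFun f := PowerSeries.mk fun m => coeff (5 * m) f
  map_add' f g := by
    ext m
    simp
  map_smul' c f := by
    ext m
    simp

theorem HT5_coeff_U (m : ℕ) (f : FF) : coeff m (HT5_U f) = coeff (5 * m) f := by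
  simp [HT5_U]

theorem HT5_T_eq (hEXP : EXP_stmt) (f : FF) : T 5 f = HT5_U f + ex 5 f := by
  obtain ⟨-, -, -, -, -, h6⟩ := hEXP
  ext m
  rw [h6 5 m f (by norm_num), map_add, HT5_coeff_U]
  unfold ex
  rw [coeff_mk]

theorem HT5_coeff_ex (h : FF) (m : ℕ) : coeff (5 * m) (ex 5 h) = coeff m h := by
  unfold ex
  rw [coeff_mk, if_pos (Dvd.intro m rfl), Nat.mul_div_cancel_left m (by norm_num)]

theorem HT5_U_mul (h f : FF) : HT5_U (ex 5 h * f) = h * HT5_U f := by
  ext m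
  rw [HT5_coeff_U, coeff_mul, coeff_mul]
  symm
  refine Finset.sum_of_injOn (fun x : ℕ × ℕ => (5 * x.1, 5 * x.2)) ?_ ?_ ?_ ?_
  · intro x _ y _ hxy
    have h1 : 5 * x.1 = 5 * y.1 := congrArg Prod.fst hxy
    have h2 : 5 * x.2 = 5 * y.2 := congrArg Prod.snd hxy
    exact Prod.ext (by omega) (by omega)
  · intro x hx
    have hx' : x ∈ Finset.HasAntidiagonal.antidiagonal m := hx
    rw [Finset.HasAntidiagonal.mem_antidiagonal] at hx'
    show (5 * x.1, 5 * x.2) ∈ Finset.HasAntidiagonal.antidiagonal (5 * m)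
    rw [Finset.HasAntidiagonal.mem_antidiagonal]
    show 5 * x.1 + 5 * x.2 = 5 * m
    omega
  · intro x hx hx2
    rw [Finset.HasAntidiagonal.mem_antidiagonal] at hx
    by_cases hd : 5 ∣ x.1
    · exfalso
      apply hx2
      refine ⟨(x.1 / 5, x.2 / 5), ?_, ?_⟩
      · show (x.1 / 5, x.2 / 5) ∈ Finset.HasAntidiagonal.antidiagonal m
        rw [Finset.HasAntidiagonal.mem_antidiagonal]
        show x.1 / 5 + x.2 / 5 = m
        omega
      · show (5 * (x.1 / 5), 5 * (x.2 / 5)) = x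
        exact Prod.ext (by show 5 * (x.1 / 5) = x.1; omega) (by show 5 * (x.2 / 5) = x.2; omega)
    · have h0 : coeff x.1 (ex 5 h) = 0 := by
        unfold ex
        rw [coeff_mk, if_neg hd]
      rw [h0, zero_mul]
  · intro x _
    show coeff x.1 h * coeff x.2 (HT5_U f) = coeff (5 * x.1) (ex 5 h) * coeff (5 * x.2) f
    rw [HT5_coeff_ex, HT5_coeff_U]

/-- the recursion -/
theorem HT5_rec (hME5 : ME5_stmt) (hEXP : EXP_stmt) (k : ℕ) :
    T 5 (DD ^ (k + 6)) = DD ^ 2 * T 5 (DD ^ (k + 4)) + DD ^ 4 * T 5 (DD ^ (k + 2)) +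
      DD * T 5 (DD ^ (k + 1)) + DD ^ 6 * T 5 (DD ^ k) := by
  obtain ⟨h1, -, -, -, -, -⟩ := id hEXP
  have hE : ∀ j : ℕ, ex 5 (DD ^ j) = ex 5 DD ^ j := (h1 5 DD DD (by norm_num)).2.2.2
  have h2 : (2 : FF) = 0 := by
    have := add_self_FF (1 : FF)
    rw [one_add_one_eq_two] at this
    exact this
  have hM : DD ^ 6 + DD ^ 4 * ex 5 DD ^ 2 + DD ^ 2 * ex 5 DD ^ 4 + ex 5 DD ^ 6 = DD * ex 5 DD := hME5
  set z := ex 5 DD with hz
  -- the first form
  have hA1 : DD ^ (k + 6) = z ^ 2 * DD ^ (k + 4) + z ^ 4 * DD ^ (k + 2) + z * DD ^ (k + 1) + z ^ 6 * DD ^ k := by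
    linear_combination DD ^ k * hM - (z ^ 2 * DD ^ (k + 4) + z ^ 4 * DD ^ (k + 2) + z ^ 6 * DD ^ k) * h2
  have hA2 : z ^ (k + 6) = DD ^ 2 * z ^ (k + 4) + DD ^ 4 * z ^ (k + 2) + DD * z ^ (k + 1) + DD ^ 6 * z ^ k := by
    linear_combination z ^ k * hM - (DD ^ 2 * z ^ (k + 4) + DD ^ 4 * z ^ (k + 2) + DD ^ 6 * z ^ k) * h2
  have hU : HT5_U (DD ^ (k + 6)) = DD ^ 2 * HT5_U (DD ^ (k + 4)) + DD ^ 4 * HT5_U (DD ^ (k + 2)) +
      DD * HT5_U (DD ^ (k + 1)) + DD ^ 6 * HT5_U (DD ^ k) := by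
    have e2 : HT5_U (z ^ 2 * DD ^ (k + 4)) = DD ^ 2 * HT5_U (DD ^ (k + 4)) := by
      rw [hz, ← hE 2, HT5_U_mul]
    have e4 : HT5_U (z ^ 4 * DD ^ (k + 2)) = DD ^ 4 * HT5_U (DD ^ (k + 2)) := by
      rw [hz, ← hE 4, HT5_U_mul]
    have e1 : HT5_U (z * DD ^ (k + 1)) = DD * HT5_U (DD ^ (k + 1)) := by
      rw [hz, HT5_U_mul]
    have e6 : HT5_U (z ^ 6 * DD ^ k) = DD ^ 6 * HT5_U (DD ^ k) := by
      rw [hz, ← hE 6, HT5_U_mul]
    rw [hA1, map_add, map_add, map_add, e2, e4, e1, e6]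
  rw [HT5_T_eq hEXP, HT5_T_eq hEXP, HT5_T_eq hEXP, HT5_T_eq hEXP, HT5_T_eq hEXP, hE, hE, hE, hE, hE, hU, hA2]
  ring

/-- the span of the powers with exponents in `P` -/
def HT5_W (P : ℕ → Prop) : Submodule (ZMod 2) FF :=
  Submodule.span (ZMod 2) {f : FF | ∃ j : ℕ, P j ∧ f = DD ^ j}

theorem HT5_W_mem {P : ℕ → Prop} {j : ℕ} (h : P j) : DD ^ j ∈ HT5_W P :=
  Submodule.subset_span ⟨j, h, rfl⟩

theorem HT5_W_mul {P Q : ℕ → Prop} (c : ℕ) (h : ∀ j, P j → Q (c + j)) {f : FF} (hf : f ∈ HT5_W P) :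
    DD ^ c * f ∈ HT5_W Q := by
  induction hf using Submodule.span_induction with
  | mem f hf =>
    obtain ⟨j, hj, rfl⟩ := hf
    rw [← pow_add]
    exact HT5_W_mem (h j hj)
  | zero =>
    rw [mul_zero]
    exact Submodule.zero_mem _
  | add f g _ _ h1 h2 =>
    rw [mul_add]
    exact Submodule.add_mem _ h1 h2
  | smul a f _ h1 =>
    rw [mul_smul_comm]
    exact Submodule.smul_mem _ a h1

theorem HT5_W_sq {P Q : ℕ → Prop} (h : ∀ j, P j → Q (2 * j)) {f : FF} (hf : f ∈ HT5_W P) :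
    f ^ 2 ∈ HT5_W Q := by
  induction hf using Submodule.span_induction with
  | mem f hf =>
    obtain ⟨j, hj, rfl⟩ := hf
    rw [← pow_mul, mul_comm j 2]
    exact HT5_W_mem (h j hj)
  | zero =>
    rw [zero_pow two_ne_zero]
    exact Submodule.zero_mem _
  | add f g _ _ h1 h2 =>
    have e : (f + g) ^ 2 = f ^ 2 + g ^ 2 := by
      have h3 := add_self_FF (f * g)
      linear_combination h3
    rw [e]
    exact Submodule.add_mem _ h1 h2
  | smul a f _ h1 =>
    have e : (a • f) ^ 2 = (a ^ 2) • f ^ 2 := smul_pow a f 2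
    rw [e]
    exact Submodule.smul_mem _ _ h1

theorem HT5_W_mono {P Q : ℕ → Prop} (h : ∀ j, P j → Q j) : HT5_W P ≤ HT5_W Q := by
  apply Submodule.span_mono
  rintro f ⟨j, hj, rfl⟩
  exact ⟨j, h j hj, rfl⟩

theorem HT5_W_VV {P : ℕ → Prop} {l : ℕ} (h : ∀ j, P j → j < l ∧ Odd j) : HT5_W P ≤ VV 2 DD l := by
  apply Submodule.span_mono
  rintro f ⟨j, hj, rfl⟩
  exact ⟨j, (h j hj).1, Nat.coprime_two_right.2 (h j hj).2, rfl⟩

theorem HT5_VV_W (l : ℕ) : VV 2 DD l ≤ HT5_W (fun j => j < l ∧ Odd j) := by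
  apply Submodule.span_mono
  rintro f ⟨j, hj, hc, rfl⟩
  exact ⟨j, ⟨hj, Nat.coprime_two_right.1 hc⟩, rfl⟩

theorem HT5_one (hTGR : TGR_stmt) (hEXP : EXP_stmt) : T 5 DD = 0 := by
  obtain ⟨-, hD, -, -, -, -⟩ := hTGR
  obtain ⟨-, -, -, -, -, h6⟩ := hEXP
  ext m
  rw [h6 5 m DD (by norm_num), hD, hD, map_zero]
  by_cases hm : 5 ∣ m
  · obtain ⟨s, rfl⟩ := hm
    rw [if_pos (Dvd.intro s rfl), Nat.mul_div_cancel_left s (by norm_num)]
    have hiff : (∃ v : ℕ, Odd v ∧ 5 * (5 * s) = v ^ 2) ↔ ∃ v : ℕ, Odd v ∧ s = v ^ 2 := by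
      constructor
      · rintro ⟨v, hv, h⟩
        have h5 : 5 ∣ v := by
          have : 5 ∣ v ^ 2 := ⟨5 * s, h.symm⟩
          exact (by norm_num : Nat.Prime 5).dvd_of_dvd_pow this
        obtain ⟨w, rfl⟩ := h5
        refine ⟨w, (Nat.odd_mul.1 hv).2, ?_⟩
        nlinarith
      · rintro ⟨v, hv, rfl⟩
        exact ⟨5 * v, Nat.odd_mul.2 ⟨by decide, hv⟩, by ring⟩
    by_cases hs : ∃ v : ℕ, Odd v ∧ s = v ^ 2
    · rw [if_pos (hiff.2 hs), if_pos hs]
      decide
    · rw [if_neg (fun h => hs (hiff.1 h)), if_neg hs]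
      decide
  · rw [if_neg hm]
    have hno : ¬ ∃ v : ℕ, Odd v ∧ 5 * m = v ^ 2 := by
      rintro ⟨v, -, h⟩
      have h5 : 5 ∣ v := by
        have : 5 ∣ v ^ 2 := ⟨m, h.symm⟩
        exact (by norm_num : Nat.Prime 5).dvd_of_dvd_pow this
      obtain ⟨w, rfl⟩ := h5
      apply hm
      exact ⟨w ^ 2, by nlinarith⟩
    rw [if_neg hno]
    decide

/-- exponents of `T 5 (DD ^ i)` -/
theorem HT5_exp (hTGR : TGR_stmt) (hEXP : EXP_stmt) (i m : ℕ) (h : coeff m (T 5 (DD ^ i)) ≠ 0) :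
    m % 8 = (5 * i) % 8 := by
  obtain ⟨-, -, -, -, hD, -⟩ := hTGR
  obtain ⟨-, -, -, -, -, h6⟩ := hEXP
  rw [h6 5 m _ (by norm_num)] at h
  by_cases h1 : coeff (5 * m) (DD ^ i) = 0
  · rw [h1, zero_add] at h
    by_cases hm : 5 ∣ m
    · rw [if_pos hm] at h
      have h2 := hD i (m / 5) h
      omega
    · rw [if_neg hm] at h
      exact absurd rfl h
  · have h2 := hD i (5 * m) h1
    omega

/-- `T 5 (DD ^ 3) = 0` -/
theorem HT5_three (hGN2 : GN2_stmt) (hTGR : TGR_stmt) (hEXP : EXP_stmt) (hGRD : GRD_stmt) :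
    T 5 (DD ^ 3) = 0 := by
  obtain ⟨-, hG2, hG3⟩ := hGRD
  have h1 : T 5 (DD ^ 3) ∈ VV 2 DD 4 := Gen.hec hGN2 5 (by norm_num) 3 (by norm_num)
  obtain ⟨J, hJ, hJ'⟩ := hG3 (fun j => j < 4 ∧ Odd j) DD _ (HT5_VV_W 4 h1)
  have h2 := hG2 J 7 (fun m hm => by
    rw [← hJ'] at hm
    have := HT5_exp hTGR hEXP 3 m hm
    omega)
  have h3 : J = ∅ := by
    rw [Finset.eq_empty_iff_forall_notMem]
    intro j hj
    have h4 := (hJ j hj).1
    have h5 := h2 j hj
    omega
  rw [hJ', h3, Finset.sum_empty]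

/-- `T 5 (DD ^ 5) = DD` -/
theorem HT5_five (hGN2 : GN2_stmt) (hTGR : TGR_stmt) (hEXP : EXP_stmt) (hGRD : GRD_stmt) :
    T 5 (DD ^ 5) = DD := by
  obtain ⟨-, hG2, hG3⟩ := hGRD
  have h1 : T 5 (DD ^ 5) ∈ VV 2 DD 6 := Gen.hec hGN2 5 (by norm_num) 5 (by norm_num)
  obtain ⟨J, hJ, hJ'⟩ := hG3 (fun j => j < 6 ∧ Odd j) DD _ (HT5_VV_W 6 h1)
  have h2 := hG2 J 1 (fun m hm => by
    rw [← hJ'] at hm
    have := HT5_exp hTGR hEXP 5 m hm
    omega)
  have h3 : J ⊆ {1} := by
    intro j hj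
    rw [Finset.mem_singleton]
    have h4 := (hJ j hj).1
    have h5 := h2 j hj
    omega
  rcases Finset.subset_singleton_iff.1 h3 with h4 | h4
  · exfalso
    have h5 : T 5 (DD ^ 5) = 0 := by rw [hJ', h4, Finset.sum_empty]
    have h6 : coeff 1 (T 5 (DD ^ 5)) = coeff (5 * 1) (DD ^ 5) + if 5 ∣ 1 then coeff (1 / 5) (DD ^ 5) else 0 :=
      hEXP.2.2.2.2.2 5 1 (DD ^ 5) (by norm_num)
    rw [h5, map_zero, if_neg (by norm_num), add_zero] at h6
    have h7 : coeff 5 (DD ^ 5) = 1 := by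
      have h8 : coeff 1 DD = 1 := Gen.c1 hGN2
      rw [DD_def] at h8 ⊢
      set G : FF := Pool.Agent.helper81.EE ^ 24 with hG
      have h9 : coeff (0 + 1) (X * G) = coeff 0 G := coeff_succ_X_mul 0 G
      rw [zero_add, h8] at h9
      have h10 : coeff (0 + 5) (X ^ 5 * G ^ 5) = coeff 0 (G ^ 5) := coeff_X_pow_mul (G ^ 5) 5 0
      rw [zero_add] at h10
      rw [mul_pow, h10, coeff_zero_eq_constantCoeff_apply, map_pow, ← coeff_zero_eq_constantCoeff_apply, ← h9, one_pow]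
    rw [show 5 * 1 = 5 from rfl, h7] at h6
    exact zero_ne_one h6
  · rw [hJ', h4, Finset.sum_singleton, pow_one]

/-- the weak form, for all `k` -/
theorem HT5_weak (hME5 : ME5_stmt) (hGN2 : GN2_stmt) (hTGR : TGR_stmt) (hEXP : EXP_stmt) (hGRD : GRD_stmt) :
    ∀ k : ℕ, T 5 (DD ^ k) ∈ HT5_W (fun j => j + 4 ≤ k ∧ j % 2 = k % 2) := by
  intro k
  induction k using Nat.strong_induction_on with
  | _ k ih =>
    rcases Nat.even_or_odd' k with ⟨n, hn | hn⟩
    · rcases Nat.eq_zero_or_pos n with h0 | hpos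
      · have hk0 : k = 0 := by omega
        rw [hk0, pow_zero]
        have h1 : T 5 (1 : FF) = 0 := by
          rw [HT5_T_eq hEXP]
          have h2 : ex 5 (1 : FF) = 1 := (hEXP.1 5 1 1 (by norm_num)).2.2.1
          have h3 : HT5_U (1 : FF) = 1 := by
            have h4 := HT5_U_mul 1 1
            ext m
            rw [HT5_coeff_U, coeff_one, coeff_one]
            by_cases hm : m = 0
            · rw [hm]
            · rw [if_neg hm, if_neg (by omega)]
          rw [h2, h3]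
          exact add_self_FF 1
        rw [h1]
        exact Submodule.zero_mem _
      · have h1 := ih n (by omega)
        have h2 : T 5 (DD ^ k) = T 5 (DD ^ n) ^ 2 := by
          rw [← hEXP.2.2.2.2.1 5 (DD ^ n) (by decide), ← pow_mul, hn, mul_comm]
        rw [h2]
        refine HT5_W_sq ?_ h1
        intro j hj
        constructor <;> omega
    · rcases Nat.lt_or_ge k 7 with hlt | hge
      · have hcases : k = 1 ∨ k = 3 ∨ k = 5 := by omega
        rcases hcases with h | h | h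
        · rw [h, pow_one, HT5_one hTGR hEXP]
          exact Submodule.zero_mem _
        · rw [h, HT5_three hGN2 hTGR hEXP hGRD]
          exact Submodule.zero_mem _
        · rw [h, HT5_five hGN2 hTGR hEXP hGRD]
          have h1 : DD ^ 1 ∈ HT5_W (fun j => j + 4 ≤ 5 ∧ j % 2 = 5 % 2) := HT5_W_mem ⟨by norm_num, by norm_num⟩
          rw [pow_one] at h1
          exact h1
      · obtain ⟨m, rfl⟩ : ∃ m, k = m + 6 := ⟨k - 6, by omega⟩
        rw [HT5_rec hME5 hEXP]
        refine Submodule.add_mem _ (Submodule.add_mem _ (Submodule.add_mem _ ?_ ?_) ?_) ?_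
        · refine HT5_W_mul 2 ?_ (ih (m + 4) (by omega))
          intro j hj
          constructor <;> omega
        · refine HT5_W_mul 4 ?_ (ih (m + 2) (by omega))
          intro j hj
          constructor <;> omega
        · have h1 := HT5_W_mul (Q := fun j => j + 4 ≤ m + 6 ∧ j % 2 = (m + 6) % 2) 1 (by
            intro j hj
            constructor <;> omega) (ih (m + 1) (by omega))
          rw [pow_one] at h1
          exact h1
        · refine HT5_W_mul 6 ?_ (ih m (by omega))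
          intro j hj
          constructor <;> omega

/-- ROW lq:HT5. -/
theorem HT5 (hME5 : ME5_stmt) (hGN2 : GN2_stmt) (hTGR : TGR_stmt) (hEXP : EXP_stmt) (hGRD : GRD_stmt) : HT5_stmt := by
  have hmain : ∀ k : ℕ, Odd k → T 5 (DD ^ k) + (if k % 8 = 5 ∨ k % 8 = 7 then DD ^ (k - 4) else 0) ∈
      HT5_W (fun j => j + 4 < k ∧ Odd j) := by
    intro k
    induction k using Nat.strong_induction_on with
    | _ k ih =>
      intro hk
      rcases Nat.lt_or_ge k 7 with hlt | hge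
      · have hcases : k = 1 ∨ k = 3 ∨ k = 5 := by
          obtain ⟨n, hn⟩ := hk
          omega
        rcases hcases with h | h | h
        · rw [h, pow_one, HT5_one hTGR hEXP, if_neg (by norm_num), add_zero]
          exact Submodule.zero_mem _
        · rw [h, HT5_three hGN2 hTGR hEXP hGRD, if_neg (by norm_num), add_zero]
          exact Submodule.zero_mem _
        · rw [h, HT5_five hGN2 hTGR hEXP hGRD, if_pos (by norm_num)]
          have : DD + DD ^ (5 - 4) = 0 := by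
            rw [show 5 - 4 = 1 from rfl, pow_one]
            exact add_self_FF DD
          rw [this]
          exact Submodule.zero_mem _
      · obtain ⟨m, rfl⟩ : ∃ m, k = m + 6 := ⟨k - 6, by omega⟩
        have hm : Odd m := by
          obtain ⟨n, hn⟩ := hk
          exact ⟨n - 3, by omega⟩
        have hm4 : Odd (m + 4) := by
          obtain ⟨n, hn⟩ := hm
          exact ⟨n + 2, by omega⟩
        have hm2 : Odd (m + 2) := by
          obtain ⟨n, hn⟩ := hm
          exact ⟨n + 1, by omega⟩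
        have i1 := HT5_W_mul (Q := fun j => j + 4 < m + 6 ∧ Odd j) 2 (by
          rintro j ⟨h1, h2⟩
          refine ⟨by omega, ?_⟩
          obtain ⟨n, hn⟩ := h2
          exact ⟨n + 1, by omega⟩) (ih (m + 4) (by omega) hm4)
        have i2 := HT5_W_mul (Q := fun j => j + 4 < m + 6 ∧ Odd j) 4 (by
          rintro j ⟨h1, h2⟩
          refine ⟨by omega, ?_⟩
          obtain ⟨n, hn⟩ := h2
          exact ⟨n + 2, by omega⟩) (ih (m + 2) (by omega) hm2)
        have i3 := HT5_W_mul (Q := fun j => j + 4 < m + 6 ∧ Odd j) 6 (by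
          rintro j ⟨h1, h2⟩
          refine ⟨by omega, ?_⟩
          obtain ⟨n, hn⟩ := h2
          exact ⟨n + 3, by omega⟩) (ih m (by omega) hm)
        have i4 := HT5_W_mul (Q := fun j => j + 4 < m + 6 ∧ Odd j) 1 (by
          rintro j ⟨h1, h2⟩
          refine ⟨by omega, ?_⟩
          obtain ⟨n, hn⟩ := hm
          exact ⟨j / 2, by omega⟩) (HT5_weak hME5 hGN2 hTGR hEXP hGRD (m + 1))
        have hsum := Submodule.add_mem _ (Submodule.add_mem _ (Submodule.add_mem _ i1 i2) i4) i3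
        refine (congrArg (fun t => t ∈ HT5_W (fun j => j + 4 < m + 6 ∧ Odd j)) ?_).mp hsum
        rw [HT5_rec hME5 hEXP, pow_one]
        have hk2 : m + 6 - 4 = m + 2 := by omega
        rw [hk2]
        have hcl : DD ^ 2 * (if (m + 4) % 8 = 5 ∨ (m + 4) % 8 = 7 then DD ^ (m + 4 - 4) else 0) +
            DD ^ 4 * (if (m + 2) % 8 = 5 ∨ (m + 2) % 8 = 7 then DD ^ (m + 2 - 4) else 0) +
            DD ^ 6 * (if m % 8 = 5 ∨ m % 8 = 7 then DD ^ (m - 4) else 0) =
            (if (m + 6) % 8 = 5 ∨ (m + 6) % 8 = 7 then DD ^ (m + 2) else 0) := by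
          have h8 : m % 8 = 1 ∨ m % 8 = 3 ∨ m % 8 = 5 ∨ m % 8 = 7 := by
            obtain ⟨n, hn⟩ := hm
            omega
          rcases h8 with h | h | h | h
          · rw [if_pos (by omega), if_neg (by omega), if_neg (by omega), if_pos (by omega)]
            rw [mul_zero, mul_zero, add_zero, add_zero, ← pow_add]
            congr 1
            omega
          · rw [if_pos (by omega), if_pos (by omega), if_neg (by omega), if_neg (by omega)]
            rw [mul_zero, add_zero, ← pow_add, ← pow_add]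
            have e1 : 2 + (m + 4 - 4) = m + 2 := by omega
            have e2 : 4 + (m + 2 - 4) = m + 2 := by omega
            rw [e1, e2]
            exact add_self_FF _
          · rw [if_neg (by omega), if_pos (by omega), if_pos (by omega), if_neg (by omega)]
            rw [mul_zero, zero_add, ← pow_add, ← pow_add]
            have e1 : 4 + (m + 2 - 4) = m + 2 := by omega
            have e2 : 6 + (m - 4) = m + 2 := by omega
            rw [e1, e2]
            exact add_self_FF _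
          · rw [if_neg (by omega), if_neg (by omega), if_pos (by omega), if_pos (by omega)]
            rw [mul_zero, mul_zero, zero_add, zero_add, ← pow_add]
            congr 1
            omega
        rw [← hcl]
        ring
  intro k hk
  refine HT5_W_VV ?_ (hmain k hk)
  rintro j ⟨h1, h2⟩
  exact ⟨by omega, h2⟩

end Pool.Agent.LQ
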